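import Pool.Agent.H34.CP.Smooth

/-!
Counting lemmas for the values `2 k x + 1`, `1 ≤ k ≤ n`, for every `x ≤ n + 1`.
-/

set_option autoImplicit false

namespace Pool.Agent.H34.CQ

open Finset Real Pool.Agent.H34.CP

/-- the mean number of prime factors -/
theorem mean_le' (t x : ℕ) (ht : 3 ≤ t) (hx : x ≤ t) :
    ∑ k ∈ Icc 1 (t - 1), ((2 * k * x + 1).primeFactors.card : ℝ) ≤
      2 * t * (8 + 4 * log (log t)) := by
  have hstep : ∀ k ∈ Icc 1 (t - 1), ((2 * k * x + 1).primeFactors.card : ℝ) ≤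
      (((Icc 1 t).filter (fun p => p.Prime ∧ p ∣ 2 * k * x + 1)).card : ℝ) + 2 := by
    intro k hk
    rw [mem_Icc] at hk
    have h1 : 2 * k * x + 1 < 2 * t ^ 2 := by
      have h2 : k + 1 ≤ t := by omega
      have h3 : 2 * (k + 1) * t ≤ 2 * t * t := by
        apply Nat.mul_le_mul_right
        omega
      have h4 : k * x ≤ k * t := Nat.mul_le_mul_left _ hx
      nlinarith
    have h2 := card_large t (2 * k * x + 1) (by omega) (by omega) h1
    have h3 : (2 * k * x + 1).primeFactors ⊆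
        (Icc 1 t).filter (fun p => p.Prime ∧ p ∣ 2 * k * x + 1) ∪
          (2 * k * x + 1).primeFactors.filter (fun p => t < p) := by
      intro p hp
      rw [mem_union, mem_filter, mem_filter, mem_Icc]
      have h4 := Nat.prime_of_mem_primeFactors hp
      by_cases h5 : t < p
      · exact Or.inr ⟨hp, h5⟩
      · exact Or.inl ⟨⟨h4.one_le, by omega⟩, h4, Nat.dvd_of_mem_primeFactors hp⟩
    have h6 := (card_le_card h3).trans (card_union_le _ _)
    have h7 : (2 * k * x + 1).primeFactors.card ≤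
        ((Icc 1 t).filter (fun p => p.Prime ∧ p ∣ 2 * k * x + 1)).card + 2 := by omega
    exact_mod_cast h7
  have htR : (3 : ℝ) ≤ t := by exact_mod_cast ht
  have hsum : ∑ k ∈ Icc 1 (t - 1),
      (((Icc 1 t).filter (fun p => p.Prime ∧ p ∣ 2 * k * x + 1)).card : ℝ) ≤
      2 * t * ∑ p ∈ (Icc 1 t).filter Nat.Prime, (1 / (p : ℝ)) := by
    have h1 : ∑ k ∈ Icc 1 (t - 1),
        ((Icc 1 t).filter (fun p => p.Prime ∧ p ∣ 2 * k * x + 1)).card =
        ∑ p ∈ (Icc 1 t).filter Nat.Prime,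
          ((Icc 1 (t - 1)).filter (fun k => p ∣ 2 * k * x + 1)).card := by
      simp only [card_filter, ← filter_filter]
      rw [sum_comm]
    have h2 : ∑ k ∈ Icc 1 (t - 1),
        (((Icc 1 t).filter (fun p => p.Prime ∧ p ∣ 2 * k * x + 1)).card : ℝ) =
        ((∑ k ∈ Icc 1 (t - 1),
        ((Icc 1 t).filter (fun p => p.Prime ∧ p ∣ 2 * k * x + 1)).card : ℕ) : ℝ) := by
      push_cast
      rfl
    rw [h2, h1, mul_sum]
    push_cast
    apply sum_le_sum
    intro p hp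
    rw [mem_filter, mem_Icc] at hp
    have hp0 : 0 < p := hp.2.pos
    have hpR : (0 : ℝ) < p := by exact_mod_cast hp0
    have h3 := card_dvd_le p (t - 1) x hp0
    have h4 : (((Icc 1 (t - 1)).filter (fun k => p ∣ 2 * k * x + 1)).card : ℝ) ≤
        (((t - 1) / p + 1 : ℕ) : ℝ) := by exact_mod_cast h3
    have h5 : (((t - 1) / p : ℕ) : ℝ) ≤ t / p := by
      have h6 : (((t - 1) / p : ℕ) : ℝ) ≤ ((t - 1 : ℕ) : ℝ) / p := Nat.cast_div_le
      have h7 : ((t - 1 : ℕ) : ℝ) ≤ t := by exact_mod_cast Nat.sub_le _ _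
      exact h6.trans (div_le_div_of_nonneg_right h7 hpR.le)
    have h8 : (1 : ℝ) ≤ t / p := by
      rw [le_div_iff₀ hpR, one_mul]
      exact_mod_cast hp.1.2
    push_cast at h4
    calc _ ≤ (((t - 1) / p : ℕ) : ℝ) + 1 := h4
      _ ≤ t / p + t / p := add_le_add h5 h8
      _ = 2 * t * (1 / p) := by ring
  have hinv := sum_inv_le t ht
  calc _ ≤ ∑ k ∈ Icc 1 (t - 1),
      ((((Icc 1 t).filter (fun p => p.Prime ∧ p ∣ 2 * k * x + 1)).card : ℝ) + 2) :=
        sum_le_sum hstep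
    _ = ∑ k ∈ Icc 1 (t - 1),
      (((Icc 1 t).filter (fun p => p.Prime ∧ p ∣ 2 * k * x + 1)).card : ℝ) +
        ((t - 1 : ℕ) : ℝ) * 2 := by
        rw [sum_add_distrib, sum_const, Nat.card_Icc, nsmul_eq_mul]
        norm_num
    _ ≤ 2 * t * (7 + 4 * log (log t)) + t * 2 := by
        have h7 : ((t - 1 : ℕ) : ℝ) ≤ t := by exact_mod_cast Nat.sub_le _ _
        have h8 : 2 * (t : ℝ) * ∑ p ∈ (Icc 1 t).filter Nat.Prime, (1 / (p : ℝ)) ≤
            2 * t * (7 + 4 * log (log t)) := mul_le_mul_of_nonneg_left hinv (by positivity)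
        linarith
    _ = 2 * t * (8 + 4 * log (log t)) := by ring

/-- Markov's inequality -/
theorem card_many' (t x : ℕ) (ht : 3 ≤ t) (hx : x ≤ t) (T : ℝ) :
    (((Icc 1 (t - 1)).filter
      (fun k => T < ((2 * k * x + 1).primeFactors.card : ℝ))).card : ℝ) * T ≤
      2 * t * (8 + 4 * log (log t)) := by
  set F := (Icc 1 (t - 1)).filter
      (fun k => T < ((2 * k * x + 1).primeFactors.card : ℝ)) with hF
  calc (F.card : ℝ) * T = ∑ k ∈ F, T := by rw [sum_const, nsmul_eq_mul]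
    _ ≤ ∑ k ∈ F, ((2 * k * x + 1).primeFactors.card : ℝ) :=
        sum_le_sum fun k hk => (mem_filter.1 hk).2.le
    _ ≤ ∑ k ∈ Icc 1 (t - 1), ((2 * k * x + 1).primeFactors.card : ℝ) :=
        sum_le_sum_of_subset_of_nonneg (filter_subset _ _) fun k _ _ => by positivity
    _ ≤ _ := mean_le' t x ht hx

theorem mean_sm' (t x J : ℕ) (ht : 2 ^ (J + 1) ≤ t) :
    ∑ k ∈ Icc 1 (t - 1), sm (2 ^ (J + 1)) (2 * k * x + 1) ≤ 12 * t * (J + 1) := by
  set y := 2 ^ (J + 1) with hy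
  have h1 : ∑ k ∈ Icc 1 (t - 1), sm y (2 * k * x + 1) ≤
      ∑ k ∈ Icc 1 (t - 1), ∑ p ∈ (Icc 1 y).filter Nat.Prime,
        (if p ∣ 2 * k * x + 1 then log p else 0) := by
    apply sum_le_sum
    intro k _
    rw [← sum_filter, sm]
    apply sum_le_sum_of_subset_of_nonneg
    · intro p hp
      rw [mem_filter] at hp
      rw [mem_filter, mem_filter, mem_Icc]
      have h4 := Nat.prime_of_mem_primeFactors hp.1
      exact ⟨⟨⟨h4.one_le, hp.2⟩, h4⟩, Nat.dvd_of_mem_primeFactors hp.1⟩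
    · intro p _ _
      exact log_natCast_nonneg p
  have h2 : ∑ k ∈ Icc 1 (t - 1), ∑ p ∈ (Icc 1 y).filter Nat.Prime,
        (if p ∣ 2 * k * x + 1 then log (p : ℝ) else 0) ≤
      2 * t * ∑ p ∈ (Icc 1 y).filter Nat.Prime, (log p / (p : ℝ)) := by
    rw [sum_comm, mul_sum]
    apply sum_le_sum
    intro p hp
    rw [mem_filter, mem_Icc] at hp
    rw [← sum_filter, sum_const, nsmul_eq_mul]
    have hp0 : 0 < p := hp.2.pos
    have hpR : (0 : ℝ) < p := by exact_mod_cast hp0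
    have h3 := card_dvd_le p (t - 1) x hp0
    have h4 : (((Icc 1 (t - 1)).filter (fun k => p ∣ 2 * k * x + 1)).card : ℝ) ≤
        (((t - 1) / p + 1 : ℕ) : ℝ) := by exact_mod_cast h3
    have h5 : (((t - 1) / p : ℕ) : ℝ) ≤ t / p := by
      have h6 : (((t - 1) / p : ℕ) : ℝ) ≤ ((t - 1 : ℕ) : ℝ) / p := Nat.cast_div_le
      have h7 : ((t - 1 : ℕ) : ℝ) ≤ t := by exact_mod_cast Nat.sub_le _ _
      exact h6.trans (div_le_div_of_nonneg_right h7 hpR.le)
    have h8 : (1 : ℝ) ≤ t / p := by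
      rw [le_div_iff₀ hpR, one_mul]
      exact_mod_cast hp.1.2.trans ht
    push_cast at h4
    have h9 : (((Icc 1 (t - 1)).filter (fun k => p ∣ 2 * k * x + 1)).card : ℝ) ≤
        2 * t / p := by
      calc _ ≤ (((t - 1) / p : ℕ) : ℝ) + 1 := h4
        _ ≤ t / p + t / p := add_le_add h5 h8
        _ = 2 * t / p := by ring
    calc _ ≤ (2 * t / p) * log p := mul_le_mul_of_nonneg_right h9 (log_natCast_nonneg p)
      _ = 2 * t * (log p / p) := by ring
  have h3 := sum_log_pow J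
  have h4 : (0 : ℝ) ≤ 2 * t := by positivity
  have h5 := mul_le_mul_of_nonneg_left h3 h4
  calc _ ≤ _ := h1
    _ ≤ _ := h2
    _ ≤ 2 * t * (6 * (J + 1)) := h5
    _ = 12 * t * (J + 1) := by ring

theorem card_sm' (t x J : ℕ) (ht : 2 ^ (J + 1) ≤ t) (T : ℝ) :
    (((Icc 1 (t - 1)).filter (fun k => T < sm (2 ^ (J + 1)) (2 * k * x + 1))).card : ℝ) * T ≤
      12 * t * (J + 1) := by
  set F := (Icc 1 (t - 1)).filter (fun k => T < sm (2 ^ (J + 1)) (2 * k * x + 1)) with hF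
  calc (F.card : ℝ) * T = ∑ k ∈ F, T := by rw [sum_const, nsmul_eq_mul]
    _ ≤ ∑ k ∈ F, sm (2 ^ (J + 1)) (2 * k * x + 1) :=
        sum_le_sum fun k hk => (mem_filter.1 hk).2.le
    _ ≤ ∑ k ∈ Icc 1 (t - 1), sm (2 ^ (J + 1)) (2 * k * x + 1) :=
        sum_le_sum_of_subset_of_nonneg (filter_subset _ _) fun k _ _ => sm_nonneg _ _
    _ ≤ _ := mean_sm' t x J ht


/-- solutions in a residue class modulo `M` -/
theorem card_class_le (M m N x c : ℕ) (hM : 0 < M) (hm : 0 < m) (hco : Nat.Coprime M m) :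
    ((Icc 1 N).filter (fun k => k % M = c ∧ m ∣ 2 * k * x + 1)).card ≤ N / (M * m) + 1 := by
  have hMm : 0 < M * m := Nat.mul_pos hM hm
  rw [← card_range (N / (M * m) + 1)]
  apply card_le_card_of_injOn (fun k => k / (M * m))
  · intro k hk
    have hk' := (mem_filter.1 (mem_coe.1 hk)).1
    rw [mem_Icc] at hk'
    exact mem_coe.2 (mem_range.2 (Nat.lt_succ_of_le (Nat.div_le_div_right hk'.2)))
  · have key : ∀ a b : ℕ, (a % M = c ∧ m ∣ 2 * a * x + 1) → (b % M = c ∧ m ∣ 2 * b * x + 1) →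
        a / (M * m) = b / (M * m) → a ≤ b → a = b := by
      rintro a b ⟨hac, ha⟩ ⟨hbc, hb⟩ hab hle
      have h1 : m ∣ (2 * b * x + 1) - (2 * a * x + 1) := Nat.dvd_sub hb ha
      have h2 : (2 * b * x + 1) - (2 * a * x + 1) = (2 * x) * (b - a) := by
        obtain ⟨d, rfl⟩ := Nat.exists_eq_add_of_le hle
        have : 2 * (a + d) * x + 1 = (2 * a * x + 1) + 2 * x * d := by ring
        rw [this, Nat.add_sub_cancel_left, Nat.add_sub_cancel_left]
      rw [h2] at h1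
      have hcop : Nat.Coprime m (2 * x) := by
        apply Nat.Coprime.symm
        rw [Nat.coprime_comm]
        refine Nat.Coprime.coprime_dvd_left ha ?_
        have : 2 * a * x + 1 = 1 + a * (2 * x) := by ring
        rw [this]
        simp
      have h3 : m ∣ b - a := hcop.dvd_of_dvd_mul_left h1
      have h4 : M ∣ b - a := (Nat.modEq_iff_dvd' hle).1 (hac.trans hbc.symm)
      have h5 : M * m ∣ b - a := hco.mul_dvd_of_dvd_of_dvd h4 h3
      obtain ⟨d, rfl⟩ := Nat.exists_eq_add_of_le hle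
      rw [Nat.add_sub_cancel_left] at h5
      obtain ⟨e, rfl⟩ := h5
      rw [Nat.add_mul_div_left _ _ hMm] at hab
      have : e = 0 := by omega
      subst this
      simp
    intro a ha b hb hab
    have ha' := (mem_filter.1 (mem_coe.1 ha)).2
    have hb' := (mem_filter.1 (mem_coe.1 hb)).2
    have hab' : a / (M * m) = b / (M * m) := hab
    rcases le_total a b with h | h
    · exact key a b ha' hb' hab' h
    · exact (key b a hb' ha' hab'.symm h).symm

/-- the odd squares from 17 on -/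
theorem sum_odd_sq' (m : ℕ) :
    ∑ j ∈ Icc 8 (m + 7), (1 / ((2 * j + 1 : ℕ) : ℝ) ^ 2) ≤ 1 / 32 - 1 / (4 * ((m : ℝ) + 8)) := by
  induction m with
  | zero => norm_num
  | succ m ih =>
    rw [show m + 1 + 7 = (m + 7) + 1 by ring, sum_Icc_succ_top (by omega)]
    have hm : (0 : ℝ) ≤ m := Nat.cast_nonneg m
    have : (1 / ((2 * (m + 7 + 1) + 1 : ℕ) : ℝ) ^ 2) ≤
        1 / (4 * ((m : ℝ) + 8)) - 1 / (4 * ((m : ℝ) + 1 + 8)) := by
      push_cast
      rw [div_sub_div _ _ (by positivity) (by positivity),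
        div_le_div_iff₀ (by positivity) (by positivity)]
      nlinarith
    push_cast at this ih ⊢
    linarith

open Classical in
/-- numbers `2kx + 1` in a class modulo `M`, prime to `M`, and not squarefree -/
theorem card_not_squarefree' (M n x c : ℕ) (hM : 0 < M)
    (h17 : ∀ p : ℕ, p.Prime → p < 17 → p ∣ M) (hx : x ≤ n) :
    (((Icc 1 n).filter (fun k => k % M = c ∧ (∀ p : ℕ, p.Prime → p ∣ M → ¬ p ∣ 2 * k * x + 1) ∧
      ¬ Squarefree (2 * k * x + 1))).card : ℝ) ≤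
      n / (32 * M) + Nat.primeCounting (2 * (n + 1)) := by
  set Pr := (Icc 1 (2 * (n + 1))).filter (fun p => p.Prime ∧ ¬ p ∣ M) with hPr
  have hMR : (0 : ℝ) < M := by exact_mod_cast hM
  have h1 : (Icc 1 n).filter (fun k => k % M = c ∧
      (∀ p : ℕ, p.Prime → p ∣ M → ¬ p ∣ 2 * k * x + 1) ∧ ¬ Squarefree (2 * k * x + 1)) ⊆
      Pr.biUnion (fun p => (Icc 1 n).filter (fun k => k % M = c ∧ p ^ 2 ∣ 2 * k * x + 1)) := by
    intro k hk
    rw [mem_filter, mem_Icc] at hk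
    rw [Nat.squarefree_iff_prime_squarefree] at hk
    obtain ⟨hk1, hkc, hkM, hk2⟩ := hk
    push Not at hk2
    obtain ⟨p, hp, hpd⟩ := hk2
    rw [mem_biUnion]
    refine ⟨p, ?_, ?_⟩
    · rw [hPr, mem_filter, mem_Icc]
      refine ⟨⟨hp.one_le, ?_⟩, hp, fun h => hkM p hp h ((Dvd.intro _ rfl).trans hpd)⟩
      by_contra hcon
      have h21 : k * x ≤ n * n := Nat.mul_le_mul hk1.2 hx
      have h2 : 2 * k * x + 1 < (2 * (n + 1)) * (2 * (n + 1)) := by nlinarith
      have h3 := Nat.le_of_dvd (by omega) hpd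
      have h4 : (2 * (n + 1)) * (2 * (n + 1)) ≤ p * p := Nat.mul_le_mul (by omega) (by omega)
      omega
    · rw [mem_filter, mem_Icc]
      exact ⟨hk1, hkc, by rw [pow_two]; exact hpd⟩
  have h2 : (((Icc 1 n).filter (fun k => k % M = c ∧
      (∀ p : ℕ, p.Prime → p ∣ M → ¬ p ∣ 2 * k * x + 1) ∧
      ¬ Squarefree (2 * k * x + 1))).card : ℝ) ≤
      ∑ p ∈ Pr, (((n : ℝ) / M) / (p : ℝ) ^ 2 + 1) := by
    have h3 := (card_le_card h1).trans card_biUnion_le
    have h4 : (((Icc 1 n).filter (fun k => k % M = c ∧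
        (∀ p : ℕ, p.Prime → p ∣ M → ¬ p ∣ 2 * k * x + 1) ∧
        ¬ Squarefree (2 * k * x + 1))).card : ℝ) ≤
        ((∑ p ∈ Pr, ((Icc 1 n).filter (fun k => k % M = c ∧ p ^ 2 ∣ 2 * k * x + 1)).card : ℕ) : ℝ) := by
      exact_mod_cast h3
    refine h4.trans ?_
    push_cast
    apply sum_le_sum
    intro p hp
    have hp1 := (mem_filter.1 hp).2.1
    have hp0 : 0 < p := hp1.pos
    have hpR : (0 : ℝ) < p := by exact_mod_cast hp0
    have hco : Nat.Coprime M (p ^ 2) := by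
      apply Nat.Coprime.pow_right
      exact ((Nat.Prime.coprime_iff_not_dvd hp1).2 (mem_filter.1 hp).2.2).symm
    have h5 := card_class_le M (p ^ 2) n x c hM (by positivity) hco
    have h6 : (((Icc 1 n).filter (fun k => k % M = c ∧ p ^ 2 ∣ 2 * k * x + 1)).card : ℝ) ≤
        ((n / (M * p ^ 2) + 1 : ℕ) : ℝ) := by exact_mod_cast h5
    refine h6.trans ?_
    push_cast
    have h7 : ((n / (M * p ^ 2) : ℕ) : ℝ) ≤ (n : ℝ) / ((M * p ^ 2 : ℕ) : ℝ) := Nat.cast_div_le
    have h8 : (n : ℝ) / ((M * p ^ 2 : ℕ) : ℝ) = ((n : ℝ) / M) / (p : ℝ) ^ 2 := by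
      push_cast
      rw [div_div]
    linarith
  have h3 : ∑ p ∈ Pr, (((n : ℝ) / M) / (p : ℝ) ^ 2 + 1) =
      (n : ℝ) / M * (∑ p ∈ Pr, 1 / (p : ℝ) ^ 2) + (Pr.card : ℝ) := by
    rw [sum_add_distrib, mul_sum, sum_const, nsmul_eq_mul, mul_one]
    congr 1
    apply sum_congr rfl
    intro p _
    ring
  have h4 : ∑ p ∈ Pr, 1 / (p : ℝ) ^ 2 ≤ 1 / 32 := by
    have h5 : ∑ p ∈ Pr, 1 / (p : ℝ) ^ 2 ≤
        ∑ j ∈ Icc 8 (n + 1 + 7), (1 / ((2 * j + 1 : ℕ) : ℝ) ^ 2) := by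
      have h6 : Pr ⊆ (Icc 8 (n + 1 + 7)).image (fun j => 2 * j + 1) := by
        intro p hp
        rw [hPr, mem_filter, mem_Icc] at hp
        obtain ⟨⟨_, hp2⟩, hp3, hp4⟩ := hp
        have hge : 17 ≤ p := by
          by_contra hcon
          exact hp4 (h17 p hp3 (by omega))
        have hodd := hp3.eq_two_or_odd
        rw [mem_image]
        refine ⟨p / 2, mem_Icc.2 ⟨by omega, by omega⟩, by omega⟩
      refine (sum_le_sum_of_subset_of_nonneg h6 fun p _ _ => by positivity).trans ?_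
      rw [sum_image]
      intro a _ b _ hab
      have : 2 * a + 1 = 2 * b + 1 := hab
      omega
    have h7 := sum_odd_sq' (n + 1)
    have h8 : (0 : ℝ) ≤ 1 / (4 * (((n + 1 : ℕ) : ℝ) + 8)) := by positivity
    linarith
  have h5 : (Pr.card : ℝ) ≤ Nat.primeCounting (2 * (n + 1)) := by
    rw [Nat.primeCounting, Nat.primeCounting', Nat.count_eq_card_filter_range]
    have h6 : Pr ⊆ (range (2 * (n + 1) + 1)).filter Nat.Prime := by
      intro p hp
      rw [hPr, mem_filter, mem_Icc] at hp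
      rw [mem_filter, mem_range]
      exact ⟨by omega, hp.2.1⟩
    exact_mod_cast card_le_card h6
  have hn0 : (0 : ℝ) ≤ (n : ℝ) / M := by positivity
  have h6 := mul_le_mul_of_nonneg_left h4 hn0
  have h7 : (n : ℝ) / M * (1 / 32) = n / (32 * M) := by
    field_simp
  rw [h3] at h2
  linarith

end Pool.Agent.H34.CQ
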