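import Pool.Agent.H34.CQ.Struct

/-!
A circular order with allowed neighbours and few mixed pairs.
-/

set_option autoImplicit false

namespace Pool.Agent.H34.CQ

theorem init (M n : ℕ) (hMpos : 0 < M) (hnM : M * M ≤ n) (τ : ℕ → ℕ) (hτlt : ∀ r, τ r < M)
    (hinv : ∀ r, r < M → τ (τ r) = r) (hτ0 : τ 0 = 0) :
    ∃ π : ℕ → ℕ, Circ n π ∧ (∀ i ∈ Set.Icc 1 n, Allowed M τ (π i) (π (i + 1))) ∧
      cnt n (Mixed M) π ≤ 2 * M := by
  classical
  have hMM : M ≤ M * M := Nat.le_mul_of_pos_left M hMpos
  have hn : 1 ≤ n := by omega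
  have hτne : ∀ r, r < M → r ≠ 0 → τ r ≠ 0 := by
    intro r hr h0 h
    have := hinv r hr
    rw [h, hτ0] at this
    exact h0 this.symm
  -- the sorting key
  let s : ℕ → ℕ := fun x => min (x % M) (τ (x % M))
  let f : ℕ → ℕ := fun x => if M ∣ x then (x / M) * (n + 2) + (n + 1) else s x * (n + 2) + x
  have hfj : ∀ x, M ∣ x → f x = (x / M) * (n + 2) + (n + 1) := fun x hx => if_pos hx
  have hfn : ∀ x, ¬ M ∣ x → f x = s x * (n + 2) + x := fun x hx => if_neg hx
  have hlt_of : ∀ a b u v : ℕ, u ≤ n + 1 → a < b → a * (n + 2) + u < b * (n + 2) + v := by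
    intro a b u v hu hab
    have : (a + 1) * (n + 2) ≤ b * (n + 2) := Nat.mul_le_mul_right _ hab
    nlinarith
  have hkey : ∀ a b u v : ℕ, u ≤ n + 1 → v ≤ n + 1 → a * (n + 2) + u = b * (n + 2) + v →
      a = b ∧ u = v := by
    intro a b u v hu hv h
    rcases lt_trichotomy a b with hab | hab | hab
    · exact absurd h (hlt_of a b u v hu hab).ne
    · subst hab
      exact ⟨rfl, by omega⟩
    · exact absurd h (hlt_of b a v u hv hab).ne'
  -- joints for the blocks
  have hs : ∀ x, ¬ M ∣ x → 1 ≤ s x ∧ s x < M := by
    intro x hx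
    have h0 : x % M ≠ 0 := fun h => hx (Nat.dvd_of_mod_eq_zero h)
    have h1 : x % M < M := Nat.mod_lt _ hMpos
    have h2 := hτne _ h1 h0
    constructor
    · exact le_min (by omega) (by omega)
    · exact lt_of_le_of_lt (min_le_left _ _) h1
  have hjn : ∀ x, ¬ M ∣ x → s x * M ∈ Finset.Icc 1 n ∧
      f (s x * M) = s x * (n + 2) + (n + 1) := by
    intro x hx
    obtain ⟨h1, h2⟩ := hs x hx
    refine ⟨Finset.mem_Icc.2 ⟨?_, ?_⟩, ?_⟩
    · exact Nat.mul_pos h1 hMpos
    · refine le_trans ?_ hnM
      exact Nat.mul_le_mul_right _ (by omega)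
    · rw [hfj _ (Dvd.intro_left _ rfl), Nat.mul_div_cancel _ hMpos]
  -- the special joints
  let J : Finset ℕ := insert (M * (n / M)) ((Finset.Icc 1 (M - 1)).image (fun j => j * M))
  have hJcard : J.card ≤ M := by
    have h1 := Finset.card_insert_le (M * (n / M)) ((Finset.Icc 1 (M - 1)).image (fun j => j * M))
    have h2 : ((Finset.Icc 1 (M - 1)).image (fun j => j * M)).card ≤ (Finset.Icc 1 (M - 1)).card :=
      Finset.card_image_le
    rw [Nat.card_Icc] at h2
    have h3 : J.card ≤ ((Finset.Icc 1 (M - 1)).image (fun j => j * M)).card + 1 := h1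
    omega
  have hJmem : ∀ x, 1 ≤ x → M ∣ x → x / M < M → x ∈ J := by
    intro x hx hxM hlt
    apply Finset.mem_insert_of_mem
    rw [Finset.mem_image]
    have h1 : x / M * M = x := Nat.div_mul_cancel hxM
    refine ⟨x / M, Finset.mem_Icc.2 ⟨?_, Nat.le_sub_one_of_lt hlt⟩, h1⟩
    rcases Nat.eq_zero_or_pos (x / M) with h2 | h2
    · rw [h2] at h1
      omega
    · exact h2
  have hord : ∃ π : ℕ → ℕ, Set.BijOn π (Set.Icc 1 n) (Set.Icc 1 n) ∧ π (n + 1) = π 1 ∧
      ∀ i ∈ Set.Icc 1 n, Allowed M τ (π i) (π (i + 1)) ∧
        (Mixed M (π i) (π (i + 1)) → π i ∈ J ∨ π (i + 1) ∈ J) := by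
    refine Pool.Agent.H34.CP.order_cycle n hn f ?_
      (fun x y => Allowed M τ x y ∧ (Mixed M x y → x ∈ J ∨ y ∈ J)) ?_ ?_
    · intro x hx y hy h
      rw [Finset.mem_Icc] at hx hy
      by_cases hxM : M ∣ x <;> by_cases hyM : M ∣ y
      · rw [hfj x hxM, hfj y hyM] at h
        have h1 := (hkey _ _ _ _ le_rfl le_rfl h).1
        rw [← Nat.div_mul_cancel hxM, ← Nat.div_mul_cancel hyM, h1]
      · rw [hfj x hxM, hfn y hyM] at h
        have h1 := (hkey _ _ _ _ le_rfl (by omega) h).2
        omega
      · rw [hfn x hxM, hfj y hyM] at h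
        have h1 := (hkey _ _ _ _ (by omega) le_rfl h).2
        omega
      · rw [hfn x hxM, hfn y hyM] at h
        exact (hkey _ _ _ _ (by omega) (by omega) h).2
    · intro x hx y hy hxy hno
      rw [Finset.mem_Icc] at hx hy
      by_cases hxM : M ∣ x
      · refine ⟨Or.inr (Or.inl hxM), ?_⟩
        intro hmix
        by_cases hyM : M ∣ y
        · exact absurd ⟨fun _ => hyM, fun _ => hxM⟩ hmix
        left
        apply hJmem x hx.1 hxM
        rw [hfj x hxM, hfn y hyM] at hxy
        by_contra hcon
        obtain ⟨h1, h2⟩ := hs y hyM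
        have h3 : s y * (n + 2) ≤ x / M * (n + 2) := Nat.mul_le_mul_right _ (by omega)
        omega
      by_cases hyM : M ∣ y
      · refine ⟨Or.inr (Or.inr hyM), ?_⟩
        intro _
        right
        apply hJmem y hy.1 hyM
        obtain ⟨h1, h2⟩ := hjn x hxM
        have h3 := hno _ h1
        rw [h2, hfn x hxM, hfj y hyM] at h3
        obtain ⟨h4, h5⟩ := hs x hxM
        by_contra hcon
        apply h3
        constructor
        · omega
        · exact hlt_of _ _ _ _ le_rfl (by omega)
      refine ⟨?_, fun hmix => absurd ⟨fun h => absurd h hxM, fun h => absurd h hyM⟩ hmix⟩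
      left
      rw [hfn x hxM, hfn y hyM] at hxy
      simp only [hfn x hxM, hfn y hyM] at hno
      -- same block
      have hsame : s x = s y := by
        rcases lt_trichotomy (s x) (s y) with h | h | h
        · exfalso
          obtain ⟨h1, h2⟩ := hjn x hxM
          apply hno _ h1
          rw [h2]
          constructor
          · omega
          · exact hlt_of _ _ _ _ le_rfl h
        · exact h
        · exfalso
          have := hlt_of (s y) (s x) y x (by omega) h
          omega
      have hxlty : x < y := by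
        rw [hsame] at hxy
        omega
      have hrx : x % M < M := Nat.mod_lt _ hMpos
      have hry : y % M < M := Nat.mod_lt _ hMpos
      by_contra hpart
      -- the residues are equal
      have hreq : y % M = x % M := by
        have h1 : min (x % M) (τ (x % M)) = min (y % M) (τ (y % M)) := hsame
        rcases min_choice (x % M) (τ (x % M)) with h2 | h2 <;>
          rcases min_choice (y % M) (τ (y % M)) with h3 | h3
        · rw [h2, h3] at h1
          exact h1.symm
        · rw [h2, h3] at h1
          exfalso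
          apply hpart
          rw [h1, hinv _ hry]
        · rw [h2, h3] at h1
          exact absurd h1.symm hpart
        · rw [h2, h3] at h1
          rw [← hinv _ hry, ← h1, hinv _ hrx]
      have hτx : τ (x % M) ≠ x % M := fun h => hpart (by rw [h, hreq])
      have hdx := Nat.div_add_mod x M
      have hdy := Nat.div_add_mod y M
      have hqlt : x / M < y / M := by
        by_contra hcon
        have : M * (y / M) ≤ M * (x / M) := Nat.mul_le_mul_left _ (by omega)
        omega
      have hM1 : M * (x / M) + M ≤ M * (y / M) := by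
        calc M * (x / M) + M = M * (x / M + 1) := by ring
          _ ≤ M * (y / M) := Nat.mul_le_mul_left _ hqlt
      have hτxlt := hτlt (x % M)
      have hx0 : x % M ≠ 0 := fun h => hxM (Nat.dvd_of_mod_eq_zero h)
      have hτx0 := hτne _ hrx hx0
      -- a general fact on an element with the paired residue
      have hz : ∀ q, (M * q + τ (x % M)) % M = τ (x % M) := by
        intro q
        rw [Nat.mul_add_mod, Nat.mod_eq_of_lt hτxlt]
      have hzM : ∀ q, ¬ M ∣ M * q + τ (x % M) := by
        intro q hq
        have := Nat.mod_eq_zero_of_dvd hq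
        rw [hz q] at this
        exact hτx0 this
      have hzs : ∀ q, s (M * q + τ (x % M)) = s x := by
        intro q
        show min ((M * q + τ (x % M)) % M) (τ ((M * q + τ (x % M)) % M)) =
          min (x % M) (τ (x % M))
        rw [hz q, hinv _ hrx, min_comm]
      rcases lt_or_gt_of_ne hτx with hlt | hgt
      · -- the partner residue is smaller: use the next row
        have hzmem : M * (x / M + 1) + τ (x % M) ∈ Finset.Icc 1 n := by
          rw [Finset.mem_Icc]
          have : M * (x / M + 1) = M * (x / M) + M := by ring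
          constructor <;> omega
        apply hno _ hzmem
        rw [hfn _ (hzM _), hzs, ← hsame]
        have : M * (x / M + 1) = M * (x / M) + M := by ring
        constructor <;> omega
      · have hzmem : M * (x / M) + τ (x % M) ∈ Finset.Icc 1 n := by
          rw [Finset.mem_Icc]
          constructor <;> omega
        apply hno _ hzmem
        rw [hfn _ (hzM _), hzs, ← hsame]
        constructor <;> omega
    · intro x hx hmax y _ _
      rw [Finset.mem_Icc] at hx
      by_cases hxM : M ∣ x
      · refine ⟨Or.inr (Or.inl hxM), fun _ => Or.inl ?_⟩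
        have hq1 : 1 ≤ n / M := (Nat.one_le_div_iff hMpos).2 (by omega)
        have hmem : M * (n / M) ∈ Finset.Icc 1 n :=
          Finset.mem_Icc.2 ⟨Nat.mul_pos hMpos hq1, Nat.mul_div_le n M⟩
        have h1 := hmax _ hmem
        rw [hfj _ (Dvd.intro _ rfl), hfj x hxM, Nat.mul_div_cancel_left _ hMpos] at h1
        have h2 : x / M ≤ n / M := Nat.div_le_div_right hx.2
        have h3 : n / M ≤ x / M := by
          by_contra hcon
          have := hlt_of (x / M) (n / M) (n + 1) (n + 1) le_rfl (by omega)
          omega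
        have h4 : x = M * (n / M) := by
          rw [← Nat.div_mul_cancel hxM, mul_comm]
          congr 1
          omega
        rw [h4]
        exact Finset.mem_insert_self _ _
      · exfalso
        obtain ⟨h1, h2⟩ := hjn x hxM
        have h3 := hmax _ h1
        rw [h2, hfn x hxM] at h3
        omega

  obtain ⟨π, hb, hper, hA⟩ := hord
  refine ⟨π, ⟨hb, hper⟩, fun i hi => (hA i hi).1, ?_⟩
  have hc : Circ n π := ⟨hb, hper⟩
  have hle : cnt n (Mixed M) π ≤ ((Finset.Icc 1 n).filter (fun i => π i ∈ J)).card +
      ((Finset.Icc 1 n).filter (fun i => π (i + 1) ∈ J)).card := by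
    unfold cnt
    refine (Finset.card_le_card ?_).trans (Finset.card_union_le _ _)
    intro i hi
    rw [Finset.mem_filter] at hi
    rw [Finset.mem_union, Finset.mem_filter, Finset.mem_filter]
    rcases (hA i (by simpa using hi.1)).2 hi.2 with h | h
    · exact Or.inl ⟨hi.1, h⟩
    · exact Or.inr ⟨hi.1, h⟩
  have h1 : ((Finset.Icc 1 n).filter (fun i => π i ∈ J)).card ≤ J.card := by
    apply Finset.card_le_card_of_injOn π
    · intro i hi
      exact (Finset.mem_filter.1 (Finset.mem_coe.1 hi)).2
    · intro i hi j hj hij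
      have hi' := (Finset.mem_filter.1 (Finset.mem_coe.1 hi)).1
      have hj' := (Finset.mem_filter.1 (Finset.mem_coe.1 hj)).1
      exact hb.injOn (by simpa using hi') (by simpa using hj') hij
  have h2 : ((Finset.Icc 1 n).filter (fun i => π (i + 1) ∈ J)).card ≤ J.card := by
    apply Finset.card_le_card_of_injOn (fun i => π (i + 1))
    · intro i hi
      exact (Finset.mem_filter.1 (Finset.mem_coe.1 hi)).2
    · intro i hi j hj hij
      have hi' := (Finset.mem_filter.1 (Finset.mem_coe.1 hi)).1
      have hj' := (Finset.mem_filter.1 (Finset.mem_coe.1 hj)).1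
      exact succ_inj hc i hi' j hj' hij
  omega

end Pool.Agent.H34.CQ
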