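import Pool.Agent.H34.CP.Insert

/-!
Circular orders with few bad neighbours: exchange of two pairs of neighbours.
-/

set_option autoImplicit false

namespace Pool.Agent.H34.CQ

open Finset

/-- a circular order of `1, …, n` -/
structure Circ (n : ℕ) (π : ℕ → ℕ) : Prop where
  bij : Set.BijOn π (Set.Icc 1 n) (Set.Icc 1 n)
  per : π (n + 1) = π 1

/-- number of neighbouring pairs with the property `W` -/
noncomputable def cnt (n : ℕ) (W : ℕ → ℕ → Prop) (π : ℕ → ℕ) : ℕ := by
  classical exact ((Icc 1 n).filter (fun i => W (π i) (π (i + 1)))).card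

/-- the new order: the entries at the places `a + 1, …, b` are reversed -/
def rev (a b : ℕ) (π : ℕ → ℕ) : ℕ → ℕ := fun t =>
  if a + 1 ≤ t ∧ t ≤ b then π (a + b + 1 - t) else π t

theorem rev_in {a b : ℕ} {π : ℕ → ℕ} {t : ℕ} (h1 : a + 1 ≤ t) (h2 : t ≤ b) :
    rev a b π t = π (a + b + 1 - t) := if_pos ⟨h1, h2⟩

theorem rev_out {a b : ℕ} {π : ℕ → ℕ} {t : ℕ} (h : ¬ (a + 1 ≤ t ∧ t ≤ b)) :
    rev a b π t = π t := if_neg h

theorem circ_rev {n a b : ℕ} {π : ℕ → ℕ} (h : Circ n π) (ha : 1 ≤ a) (hab : a < b) (hb : b ≤ n) :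
    Circ n (rev a b π) := by
  constructor
  · have hmaps : Set.MapsTo (rev a b π) (Set.Icc 1 n) (Set.Icc 1 n) := by
      intro t ht
      have ht1 := ht.1
      have ht2 := ht.2
      by_cases hc : a + 1 ≤ t ∧ t ≤ b
      · rw [rev_in hc.1 hc.2]
        exact h.bij.mapsTo ⟨by omega, by omega⟩
      · rw [rev_out hc]
        exact h.bij.mapsTo ht
    refine ⟨hmaps, ?_, ?_⟩
    · intro s hs t ht hst
      have hs1 := hs.1
      have hs2 := hs.2
      have ht1 := ht.1
      have ht2 := ht.2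
      by_cases hc : a + 1 ≤ s ∧ s ≤ b <;> by_cases hd : a + 1 ≤ t ∧ t ≤ b
      · rw [rev_in hc.1 hc.2, rev_in hd.1 hd.2] at hst
        have := h.bij.injOn (show a + b + 1 - s ∈ Set.Icc 1 n from ⟨by omega, by omega⟩)
          (show a + b + 1 - t ∈ Set.Icc 1 n from ⟨by omega, by omega⟩) hst
        omega
      · rw [rev_in hc.1 hc.2, rev_out hd] at hst
        have := h.bij.injOn (show a + b + 1 - s ∈ Set.Icc 1 n from ⟨by omega, by omega⟩) ht hst
        omega
      · rw [rev_out hc, rev_in hd.1 hd.2] at hst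
        have := h.bij.injOn hs (show a + b + 1 - t ∈ Set.Icc 1 n from ⟨by omega, by omega⟩) hst
        omega
      · rw [rev_out hc, rev_out hd] at hst
        exact h.bij.injOn hs ht hst
    · intro z hz
      obtain ⟨t, ht, rfl⟩ := h.bij.surjOn hz
      have ht1 := ht.1
      have ht2 := ht.2
      by_cases hc : a + 1 ≤ t ∧ t ≤ b
      · refine ⟨a + b + 1 - t, ⟨by omega, by omega⟩, ?_⟩
        rw [rev_in (by omega) (by omega)]
        congr 1
        omega
      · exact ⟨t, ht, rev_out hc⟩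
  · rw [rev_out (by omega), rev_out (by omega)]
    exact h.per

/-- the pairs of the new order -/
theorem rev_pair {a b : ℕ} (π : ℕ → ℕ) (_hab : a < b) (W : ℕ → ℕ → Prop)
    (hW : ∀ x y, W x y → W y x) (t : ℕ) (hta : t ≠ a) (htb : t ≠ b) :
    W (rev a b π t) (rev a b π (t + 1)) ↔
      W (π (if a + 1 ≤ t ∧ t ≤ b then a + b - t else t))
        (π ((if a + 1 ≤ t ∧ t ≤ b then a + b - t else t) + 1)) := by
  by_cases hc : a + 1 ≤ t ∧ t ≤ b
  · rw [rev_in hc.1 hc.2, rev_in (by omega) (by omega), if_pos hc]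
    have h1 : a + b + 1 - t = a + b - t + 1 := by omega
    have h2 : a + b + 1 - (t + 1) = a + b - t := by omega
    rw [h1, h2]
    exact ⟨hW _ _, hW _ _⟩
  · rw [rev_out hc, rev_out (by omega), if_neg hc]

theorem cnt_rev {n a b : ℕ} (π : ℕ → ℕ) (ha : 1 ≤ a) (hab : a < b) (hb : b ≤ n)
    (W : ℕ → ℕ → Prop) (hW : ∀ x y, W x y → W y x) :
    ∃ k : ℕ, (∃ e1 e2 e3 e4 : ℕ,
      (cnt n W π = k + e1 + e2) ∧ (cnt n W (rev a b π) = k + e3 + e4) ∧
      (W (π a) (π (a + 1)) ∧ e1 = 1 ∨ ¬ W (π a) (π (a + 1)) ∧ e1 = 0) ∧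
      (W (π b) (π (b + 1)) ∧ e2 = 1 ∨ ¬ W (π b) (π (b + 1)) ∧ e2 = 0) ∧
      (W (π a) (π b) ∧ e3 = 1 ∨ ¬ W (π a) (π b) ∧ e3 = 0) ∧
      (W (π (a + 1)) (π (b + 1)) ∧ e4 = 1 ∨ ¬ W (π (a + 1)) (π (b + 1)) ∧ e4 = 0)) := by
  classical
  set R := ((Icc 1 n).erase a).erase b with hR
  have hb1 : b ∈ (Icc 1 n).erase a := mem_erase.2 ⟨by omega, mem_Icc.2 ⟨by omega, hb⟩⟩
  have ha1 : a ∈ Icc 1 n := mem_Icc.2 ⟨ha, by omega⟩
  have hsplit : ∀ ρ : ℕ → ℕ, cnt n W ρ = (R.filter (fun i => W (ρ i) (ρ (i + 1)))).card +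
      (if W (ρ a) (ρ (a + 1)) then 1 else 0) + (if W (ρ b) (ρ (b + 1)) then 1 else 0) := by
    intro ρ
    unfold cnt
    rw [card_filter, card_filter, ← add_sum_erase _ _ ha1, ← add_sum_erase _ _ hb1]
    ring
  have hbij : (R.filter (fun i => W (rev a b π i) (rev a b π (i + 1)))).card =
      (R.filter (fun i => W (π i) (π (i + 1)))).card := by
    apply card_bij' (fun i _ => if a + 1 ≤ i ∧ i ≤ b then a + b - i else i)
      (fun i _ => if a + 1 ≤ i ∧ i ≤ b then a + b - i else i)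
    · intro i hi
      rw [mem_filter] at hi
      obtain ⟨hi1, hi2⟩ := hi
      rw [hR, mem_erase, mem_erase, mem_Icc] at hi1
      rw [mem_filter]
      refine ⟨?_, (rev_pair π hab W hW i hi1.2.1 hi1.1).1 hi2⟩
      rw [hR, mem_erase, mem_erase, mem_Icc]
      split_ifs <;> omega
    · intro i hi
      rw [mem_filter] at hi
      obtain ⟨hi1, hi2⟩ := hi
      rw [hR, mem_erase, mem_erase, mem_Icc] at hi1
      rw [mem_filter]
      have hmem : (if a + 1 ≤ i ∧ i ≤ b then a + b - i else i) ∈ R := by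
        rw [hR, mem_erase, mem_erase, mem_Icc]
        split_ifs <;> omega
      refine ⟨hmem, ?_⟩
      rw [hR, mem_erase, mem_erase] at hmem
      rw [rev_pair π hab W hW _ hmem.2.1 hmem.1]
      have h1 : (if a + 1 ≤ (if a + 1 ≤ i ∧ i ≤ b then a + b - i else i) ∧
          (if a + 1 ≤ i ∧ i ≤ b then a + b - i else i) ≤ b
          then a + b - (if a + 1 ≤ i ∧ i ≤ b then a + b - i else i)
          else (if a + 1 ≤ i ∧ i ≤ b then a + b - i else i)) = i := by
        split_ifs <;> omega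
      rw [h1]
      exact hi2
    · intro i hi
      rw [mem_filter, hR, mem_erase, mem_erase, mem_Icc] at hi
      show (if a + 1 ≤ (if a + 1 ≤ i ∧ i ≤ b then a + b - i else i) ∧
          (if a + 1 ≤ i ∧ i ≤ b then a + b - i else i) ≤ b
          then a + b - (if a + 1 ≤ i ∧ i ≤ b then a + b - i else i)
          else (if a + 1 ≤ i ∧ i ≤ b then a + b - i else i)) = i
      split_ifs <;> omega
    · intro i hi
      rw [mem_filter, hR, mem_erase, mem_erase, mem_Icc] at hi
      show (if a + 1 ≤ (if a + 1 ≤ i ∧ i ≤ b then a + b - i else i) ∧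
          (if a + 1 ≤ i ∧ i ≤ b then a + b - i else i) ≤ b
          then a + b - (if a + 1 ≤ i ∧ i ≤ b then a + b - i else i)
          else (if a + 1 ≤ i ∧ i ≤ b then a + b - i else i)) = i
      split_ifs <;> omega
  have hra : rev a b π a = π a := rev_out (by omega)
  have hra1 : rev a b π (a + 1) = π b := by
    rw [rev_in (by omega) (by omega)]
    congr 1
    omega
  have hrb : rev a b π b = π (a + 1) := by
    rw [rev_in (by omega) (by omega)]
    congr 1
    omega
  have hrb1 : rev a b π (b + 1) = π (b + 1) := rev_out (by omega)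
  refine ⟨(R.filter (fun i => W (π i) (π (i + 1)))).card,
    (if W (π a) (π (a + 1)) then 1 else 0), (if W (π b) (π (b + 1)) then 1 else 0),
    (if W (π a) (π b) then 1 else 0), (if W (π (a + 1)) (π (b + 1)) then 1 else 0),
    hsplit π, ?_, ?_, ?_, ?_, ?_⟩
  · rw [hsplit, hbij, hra, hra1, hrb, hrb1]
  · split_ifs with h
    · exact Or.inl ⟨h, rfl⟩
    · exact Or.inr ⟨h, rfl⟩
  · split_ifs with h
    · exact Or.inl ⟨h, rfl⟩
    · exact Or.inr ⟨h, rfl⟩
  · split_ifs with h
    · exact Or.inl ⟨h, rfl⟩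
    · exact Or.inr ⟨h, rfl⟩
  · split_ifs with h
    · exact Or.inl ⟨h, rfl⟩
    · exact Or.inr ⟨h, rfl⟩

/-- pairs of the new order are old pairs, turned pairs, or the two new ones -/
theorem all_rev {n a b : ℕ} (π : ℕ → ℕ) (ha : 1 ≤ a) (hab : a < b) (hb : b ≤ n)
    (W : ℕ → ℕ → Prop) (hW : ∀ x y, W x y → W y x)
    (hall : ∀ i ∈ Set.Icc 1 n, W (π i) (π (i + 1))) (h1 : W (π a) (π b))
    (h2 : W (π (a + 1)) (π (b + 1))) :
    ∀ i ∈ Set.Icc 1 n, W (rev a b π i) (rev a b π (i + 1)) := by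
  intro i hi
  have hi1 := hi.1
  have hi2 := hi.2
  by_cases hia : i = a
  · subst hia
    rw [rev_out (show ¬ (i + 1 ≤ i ∧ i ≤ b) by omega), rev_in (by omega) (by omega)]
    have : i + b + 1 - (i + 1) = b := by omega
    rw [this]
    exact h1
  by_cases hib : i = b
  · subst hib
    rw [rev_in (by omega) (by omega), rev_out (by omega)]
    have : a + i + 1 - i = a + 1 := by omega
    rw [this]
    exact h2
  rw [rev_pair π hab W hW i hia hib]
  apply hall
  constructor <;> split_ifs <;> omega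

end Pool.Agent.H34.CQ
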