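import Pool.Agent.H34.CQ.Opt

/-!
Removing all bad neighbours from a circular order with few mixed pairs.
-/

set_option autoImplicit false

namespace Pool.Agent.H34.CQ

open Finset

theorem cnt_pos {n : ℕ} {W : ℕ → ℕ → Prop} {π : ℕ → ℕ} {i : ℕ} (hi : i ∈ Set.Icc 1 n)
    (h : W (π i) (π (i + 1))) : 0 < cnt n W π := by
  classical
  unfold cnt
  apply card_pos.2
  exact ⟨i, mem_filter.2 ⟨by simpa using hi, h⟩⟩

/-- the exchange argument -/
theorem exchange (n D0 : ℕ) (T A mix : ℕ → ℕ → Prop) (hT : ∀ x y, T x y → T y x)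
    (hA : ∀ x y, A x y → A y x) (hmix : ∀ x y, mix x y → mix y x)
    (hex : ∀ π : ℕ → ℕ, Circ n π → (∀ i ∈ Set.Icc 1 n, T (π i) (π (i + 1))) →
      cnt n mix π ≤ D0 → ∀ i ∈ Set.Icc 1 n, ¬ A (π i) (π (i + 1)) →
      ∃ j ∈ Set.Icc 1 n, j ≠ i ∧ T (π i) (π j) ∧ A (π i) (π j) ∧
        T (π (i + 1)) (π (j + 1)) ∧ A (π (i + 1)) (π (j + 1)) ∧
        ((mix (π i) (π j) → mix (π i) (π (i + 1))) ∧ ¬ mix (π (i + 1)) (π (j + 1)) ∨
         ¬ mix (π i) (π j) ∧ (mix (π (i + 1)) (π (j + 1)) → mix (π i) (π (i + 1)))))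
    (N : ℕ) : ∀ π : ℕ → ℕ, cnt n (fun x y => ¬ A x y) π ≤ N → Circ n π →
      (∀ i ∈ Set.Icc 1 n, T (π i) (π (i + 1))) → cnt n mix π ≤ D0 →
      ∃ ρ : ℕ → ℕ, Circ n ρ ∧ ∀ i ∈ Set.Icc 1 n, T (ρ i) (ρ (i + 1)) ∧ A (ρ i) (ρ (i + 1)) := by
  have hA' : ∀ x y, ¬ A x y → ¬ A y x := fun x y h1 h2 => h1 (hA _ _ h2)
  induction N with
  | zero =>
    intro π hN hc hTπ _
    refine ⟨π, hc, fun i hi => ⟨hTπ i hi, ?_⟩⟩
    by_contra hcon
    have := cnt_pos (W := fun x y => ¬ A x y) hi hcon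
    omega
  | succ N ih =>
    intro π hN hc hTπ hD
    by_cases hall : ∀ i ∈ Set.Icc 1 n, A (π i) (π (i + 1))
    · exact ⟨π, hc, fun i hi => ⟨hTπ i hi, hall i hi⟩⟩
    push Not at hall
    obtain ⟨i, hi, hbad⟩ := hall
    obtain ⟨j, hj, hji, h1, h2, h3, h4, h5⟩ := hex π hc hTπ hD i hi hbad
    have hi1 := hi.1
    have hi2 := hi.2
    have hj1 := hj.1
    have hj2 := hj.2
    rcases Nat.lt_or_ge i j with hij | hij
    · refine ih (rev i j π) ?_ (circ_rev hc hi1 hij hj2)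
        (all_rev π hi1 hij hj2 T hT hTπ h1 h3) ?_
      · obtain ⟨k, e1, e2, e3, e4, g1, g2, g3, g4, g5, g6⟩ :=
          cnt_rev (n := n) π hi1 hij hj2 (fun x y => ¬ A x y) hA'
        rcases g3 with ⟨_, g3⟩ | ⟨g3, _⟩
        · rcases g5 with ⟨g5, _⟩ | ⟨_, g5⟩
          · exact absurd h2 g5
          · rcases g6 with ⟨g6, _⟩ | ⟨_, g6⟩
            · exact absurd h4 g6
            · omega
        · exact absurd hbad g3
      · obtain ⟨k, e1, e2, e3, e4, g1, g2, g3, g4, g5, g6⟩ :=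
          cnt_rev (n := n) π hi1 hij hj2 mix hmix
        have h6 : e3 + e4 ≤ e1 := by
          rcases h5 with ⟨h5, h5'⟩ | ⟨h5, h5'⟩
          · rcases g6 with ⟨g6, _⟩ | ⟨_, g6⟩
            · exact absurd g6 h5'
            · rcases g5 with ⟨g5, g5'⟩ | ⟨_, g5'⟩
              · rcases g3 with ⟨_, g3'⟩ | ⟨g3, _⟩
                · omega
                · exact absurd (h5 g5) g3
              · omega
          · rcases g5 with ⟨g5, _⟩ | ⟨_, g5⟩
            · exact absurd g5 h5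
            · rcases g6 with ⟨g6, g6'⟩ | ⟨_, g6'⟩
              · rcases g3 with ⟨_, g3'⟩ | ⟨g3, _⟩
                · omega
                · exact absurd (h5' g6) g3
              · omega
        omega
    · have hij' : j < i := by omega
      refine ih (rev j i π) ?_ (circ_rev hc hj1 hij' hi2)
        (all_rev π hj1 hij' hi2 T hT hTπ (hT _ _ h1) (hT _ _ h3)) ?_
      · obtain ⟨k, e1, e2, e3, e4, g1, g2, g3, g4, g5, g6⟩ :=
          cnt_rev (n := n) π hj1 hij' hi2 (fun x y => ¬ A x y) hA'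
        rcases g4 with ⟨_, g4⟩ | ⟨g4, _⟩
        · rcases g5 with ⟨g5, _⟩ | ⟨_, g5⟩
          · exact absurd (hA _ _ h2) g5
          · rcases g6 with ⟨g6, _⟩ | ⟨_, g6⟩
            · exact absurd (hA _ _ h4) g6
            · omega
        · exact absurd hbad g4
      · obtain ⟨k, e1, e2, e3, e4, g1, g2, g3, g4, g5, g6⟩ :=
          cnt_rev (n := n) π hj1 hij' hi2 mix hmix
        have h6 : e3 + e4 ≤ e2 := by
          rcases h5 with ⟨h5, h5'⟩ | ⟨h5, h5'⟩
          · rcases g6 with ⟨g6, _⟩ | ⟨_, g6⟩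
            · exact absurd (hmix _ _ g6) h5'
            · rcases g5 with ⟨g5, g5'⟩ | ⟨_, g5'⟩
              · rcases g4 with ⟨_, g4'⟩ | ⟨g4, _⟩
                · omega
                · exact absurd (h5 (hmix _ _ g5)) g4
              · omega
          · rcases g5 with ⟨g5, _⟩ | ⟨_, g5⟩
            · exact absurd (hmix _ _ g5) h5
            · rcases g6 with ⟨g6, g6'⟩ | ⟨_, g6'⟩
              · rcases g4 with ⟨_, g4'⟩ | ⟨g4, _⟩
                · omega
                · exact absurd (h5' (hmix _ _ g6)) g4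
              · omega
        omega

/-- the next entry is an injective function of the place -/
theorem succ_inj {n : ℕ} {π : ℕ → ℕ} (h : Circ n π) : ∀ i ∈ Icc 1 n, ∀ j ∈ Icc 1 n,
    π (i + 1) = π (j + 1) → i = j := by
  intro i hi j hj hij
  rw [mem_Icc] at hi hj
  by_cases hin : i = n
  · by_cases hjn : j = n
    · omega
    · rw [hin, h.per] at hij
      have := h.bij.injOn (show (1 : ℕ) ∈ Set.Icc 1 n from ⟨le_rfl, by omega⟩)
        (show j + 1 ∈ Set.Icc 1 n from ⟨by omega, by omega⟩) hij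
      omega
  · by_cases hjn : j = n
    · rw [hjn, h.per] at hij
      have := h.bij.injOn (show i + 1 ∈ Set.Icc 1 n from ⟨by omega, by omega⟩)
        (show (1 : ℕ) ∈ Set.Icc 1 n from ⟨le_rfl, by omega⟩) hij
      omega
    · have := h.bij.injOn (show i + 1 ∈ Set.Icc 1 n from ⟨by omega, by omega⟩)
        (show j + 1 ∈ Set.Icc 1 n from ⟨by omega, by omega⟩) hij
      omega

theorem succ_mem {n : ℕ} {π : ℕ → ℕ} (h : Circ n π) {i : ℕ} (hi : i ∈ Set.Icc 1 n) :
    π (i + 1) ∈ Set.Icc 1 n := by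
  have hi1 := hi.1
  have hi2 := hi.2
  by_cases hin : i = n
  · rw [hin, h.per]
    exact h.bij.mapsTo ⟨le_rfl, by omega⟩
  · exact h.bij.mapsTo ⟨by omega, by omega⟩

/-- pairs allowed by the residue classes -/
def Allowed (M : ℕ) (τ : ℕ → ℕ) (x y : ℕ) : Prop := y % M = τ (x % M) ∨ M ∣ x ∨ M ∣ y

/-- exactly one entry is a multiple of `M` -/
def Mixed (M : ℕ) (x y : ℕ) : Prop := ¬ (M ∣ x ↔ M ∣ y)

theorem struct (M n Q D0 β : ℕ) (hM : 0 < M) (τ : ℕ → ℕ) (hτlt : ∀ r, τ r < M)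
    (hinv : ∀ r, r < M → τ (τ r) = r) (hτ0 : τ 0 = 0) (A : ℕ → ℕ → Prop)
    (hA : ∀ x y, A x y → A y x)
    (hQ : ∀ r, r < M → ∀ F : Finset ℕ, (∀ x ∈ Icc 1 n, x % M = r → x ∈ F) → Q ≤ F.card)
    (hβ : ∀ x ∈ Icc 1 n, ∀ r, r < M → (r = τ (x % M) ∨ M ∣ x ∨ r = 0) → ∀ F : Finset ℕ,
      (∀ y ∈ F, y ∈ Icc 1 n ∧ y % M = r ∧ ¬ A x y) → F.card ≤ β)
    (hbig : D0 + 1 + 2 * β < Q)
    (π0 : ℕ → ℕ) (h0 : Circ n π0) (hT0 : ∀ i ∈ Set.Icc 1 n, Allowed M τ (π0 i) (π0 (i + 1)))
    (hD0 : cnt n (Mixed M) π0 ≤ D0) :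
    ∃ π : ℕ → ℕ, Circ n π ∧ ∀ i ∈ Set.Icc 1 n,
      Allowed M τ (π i) (π (i + 1)) ∧ A (π i) (π (i + 1)) := by
  classical
  have hmod : ∀ x, x % M < M := fun x => Nat.mod_lt _ hM
  have hτne : ∀ r, r < M → r ≠ 0 → τ r ≠ 0 := by
    intro r hr h0 h
    have := hinv r hr
    rw [h, hτ0] at this
    exact h0 this.symm
  have hdvd : ∀ x, M ∣ x ↔ x % M = 0 := fun x => Nat.dvd_iff_mod_eq_zero
  have hTsymm : ∀ x y, Allowed M τ x y → Allowed M τ y x := by
    rintro x y (h | h | h)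
    · left
      rw [h, hinv _ (hmod x)]
    · exact Or.inr (Or.inr h)
    · exact Or.inr (Or.inl h)
  have hmixsymm : ∀ x y, Mixed M x y → Mixed M y x := fun x y h h' => h h'.symm
  refine exchange n D0 (Allowed M τ) A (Mixed M) hTsymm hA hmixsymm ?_ _ π0 le_rfl h0 hT0 hD0
  intro π hc hTπ hD i hi hbad
  -- the class of the new left neighbour
  have key : ∀ α : ℕ, α < M → (α = τ (π i % M) ∨ M ∣ π i ∨ α = 0) →
      (τ α = τ (π (i + 1) % M) ∨ M ∣ π (i + 1) ∨ τ α = 0) →
      ∃ j ∈ Set.Icc 1 n, j ≠ i ∧ π j % M = α ∧ π (j + 1) % M = τ α ∧ A (π i) (π j) ∧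
        A (π (i + 1)) (π (j + 1)) := by
    intro α hα h1 h2
    set I := (Icc 1 n).filter (fun j => π j % M = α) with hI
    have hIQ : Q ≤ I.card := by
      have h3 := hQ α hα (I.image π) (by
        intro x hx hxα
        obtain ⟨j, hj, rfl⟩ := hc.bij.surjOn (show x ∈ Set.Icc 1 n by simpa using hx)
        exact mem_image.2 ⟨j, mem_filter.2 ⟨by simpa using hj, hxα⟩, rfl⟩)
      exact h3.trans card_image_le
    set I1 := (Icc 1 n).filter (fun j => Mixed M (π j) (π (j + 1))) with hI1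
    have hI1D : I1.card ≤ D0 := by
      have : cnt n (Mixed M) π = I1.card := by
        unfold cnt
        rw [hI1]
      omega
    set I2 := (Icc 1 n).filter (fun j => π j % M = α ∧ ¬ A (π i) (π j)) with hI2
    have hI2β : I2.card ≤ β := by
      rw [← card_image_of_injOn (f := π) (s := I2)]
      · apply hβ (π i) (by simpa using hc.bij.mapsTo hi) α hα h1
        intro y hy
        obtain ⟨j, hj, rfl⟩ := mem_image.1 hy
        rw [hI2, mem_filter] at hj
        exact ⟨by simpa using hc.bij.mapsTo (show j ∈ Set.Icc 1 n by simpa using hj.1), hj.2⟩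
      · intro a ha b hb hab
        have ha' := (mem_filter.1 (mem_coe.1 ha)).1
        have hb' := (mem_filter.1 (mem_coe.1 hb)).1
        exact hc.bij.injOn (by simpa using ha') (by simpa using hb') hab
    set I3 := (Icc 1 n).filter (fun j => π (j + 1) % M = τ α ∧ ¬ A (π (i + 1)) (π (j + 1)))
      with hI3
    have hI3β : I3.card ≤ β := by
      rw [← card_image_of_injOn (f := fun j => π (j + 1)) (s := I3)]
      · apply hβ (π (i + 1)) (by simpa using succ_mem hc hi) (τ α) (hτlt α) h2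
        intro y hy
        obtain ⟨j, hj, rfl⟩ := mem_image.1 hy
        rw [hI3, mem_filter] at hj
        exact ⟨by simpa using succ_mem hc (show j ∈ Set.Icc 1 n by simpa using hj.1), hj.2⟩
      · intro a ha b hb hab
        have ha' := (mem_filter.1 (mem_coe.1 ha)).1
        have hb' := (mem_filter.1 (mem_coe.1 hb)).1
        exact succ_inj hc a ha' b hb' hab
    by_contra hcon
    push Not at hcon
    have hsub : I ⊆ (({i} ∪ I1) ∪ I2) ∪ I3 := by
      intro j hj
      rw [hI, mem_filter] at hj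
      obtain ⟨hj1, hj2⟩ := hj
      rw [mem_union, mem_union, mem_union, mem_singleton]
      by_cases hji : j = i
      · exact Or.inl (Or.inl (Or.inl hji))
      by_cases hm : Mixed M (π j) (π (j + 1))
      · exact Or.inl (Or.inl (Or.inr (mem_filter.2 ⟨hj1, hm⟩)))
      by_cases hg : A (π i) (π j)
      · right
        have hτα : π (j + 1) % M = τ α := by
          have hm' : M ∣ π j ↔ M ∣ π (j + 1) := not_not.1 hm
          rcases hTπ j (by simpa using hj1) with h | h | h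
          · rw [h, hj2]
          · have h4 := hm'.1 h
            rw [hdvd] at h h4
            rw [h4, ← hj2, h, hτ0]
          · have h4 := hm'.2 h
            rw [hdvd] at h h4
            rw [h, ← hj2, h4, hτ0]
        rw [hI3, mem_filter]
        exact ⟨hj1, hτα, hcon j (by simpa using hj1) hji hj2 hτα hg⟩
      · exact Or.inl (Or.inr (mem_filter.2 ⟨hj1, hj2, hg⟩))
    have hle := card_le_card hsub
    have h3 := card_union_le (({i} ∪ I1) ∪ I2) I3
    have h4 := card_union_le ({i} ∪ I1) I2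
    have h5 := card_union_le {i} I1
    rw [card_singleton] at h5
    omega
  by_cases hy : M ∣ π (i + 1)
  · -- the class is `τ (π i % M)`
    obtain ⟨j, hj, hji, h1, h2, h3, h4⟩ := key (τ (π i % M)) (hτlt _) (Or.inl rfl)
      (Or.inr (Or.inl hy))
    rw [hinv _ (hmod _)] at h2
    refine ⟨j, hj, hji, Or.inl h1, h3, Or.inr (Or.inl hy), h4, Or.inr ⟨?_, ?_⟩⟩
    · intro hm
      apply hm
      rw [hdvd, hdvd, h1]
      constructor
      · intro h
        rw [h, hτ0]
      · intro h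
        by_contra hne
        exact hτne _ (hmod _) hne h
    · intro hm hm'
      apply hm
      rw [hdvd (π (j + 1)), h2, ← hdvd]
      exact ⟨fun _ => hm'.2 hy, fun _ => hy⟩
  · -- the class is that of `π (i + 1)`
    have hT := hTπ i hi
    have h1 : π (i + 1) % M = τ (π i % M) ∨ M ∣ π i ∨ π (i + 1) % M = 0 := by
      rcases hT with h | h | h
      · exact Or.inl h
      · exact Or.inr (Or.inl h)
      · exact absurd h hy
    obtain ⟨j, hj, hji, h1', h2, h3, h4⟩ := key (π (i + 1) % M) (hmod _) h1 (Or.inl rfl)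
    have hy0 : π (i + 1) % M ≠ 0 := fun h => hy ((hdvd _).2 h)
    refine ⟨j, hj, hji, ?_, h3, Or.inl h2, h4, Or.inl ⟨?_, ?_⟩⟩
    · rcases h1 with h | h | h
      · left
        rw [h1', h]
      · exact Or.inr (Or.inl h)
      · exact absurd h hy0
    · intro hm hm'
      apply hm
      rw [hdvd (π j), h1', ← hdvd]
      exact hm'
    · intro hm
      apply hm
      rw [hdvd, hdvd, h2]
      exact ⟨fun h => absurd h hy0, fun h => absurd h (hτne _ (hmod _) hy0)⟩

end Pool.Agent.H34.CQ
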