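import Pool.Agent.H34.CQ.Init
import Pool.Agent.H34.CQ.Count

/-!
Circular permutations of `1, …, n` whose numbers `2ab + 1` are at the same time squarefree, prime
to a given finite set of primes, and with few prime factors.
-/

set_option autoImplicit false

namespace Pool.Agent.H34.CQ

open Finset Real Pool.Agent.H34.CP

theorem local_ok (S : Finset ℕ) (hS : ∀ p ∈ S, p.Prime) (τ : ℕ → ℕ)
    (hτ : ∀ a : ℕ, ∀ p ∈ S, ((τ a : ℕ) : ZMod p) = -((a : ZMod p))⁻¹) (x y : ℕ)
    (h : Allowed (∏ p ∈ S, p) τ x y) : ∀ p ∈ S, ¬ p ∣ 2 * x * y + 1 := by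
  have hpM : ∀ p ∈ S, p ∣ ∏ p ∈ S, p := fun p hp => dvd_prod_of_mem _ hp
  generalize (∏ p ∈ S, p) = M at *
  have hmodcast : ∀ x, ∀ p ∈ S, ((x % M : ℕ) : ZMod p) = (x : ZMod p) := fun x p hp =>
    (ZMod.natCast_eq_natCast_iff _ _ _).2 ((Nat.mod_modEq _ _).of_dvd (hpM p hp))
  have hjoint : (M ∣ x ∨ M ∣ y) → ∀ p ∈ S, ¬ p ∣ 2 * x * y + 1 := by
    intro hxy p hp hdvd
    have h1 : p ∣ 2 * x * y := by
      rcases hxy with h | h
      · exact Dvd.dvd.mul_right (Dvd.dvd.mul_left ((hpM p hp).trans h) 2) y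
      · exact Dvd.dvd.mul_left ((hpM p hp).trans h) _
    have h2 : p ∣ 1 := (Nat.dvd_add_right h1).1 hdvd
    exact (hS p hp).one_lt.ne' (Nat.dvd_one.1 h2)
  rcases h with hxy | h | h
  · intro p hp hdvd
    have : Fact p.Prime := ⟨hS p hp⟩
    have h1 : ((2 * x * y + 1 : ℕ) : ZMod p) = 0 := (ZMod.natCast_eq_zero_iff _ _).2 hdvd
    have h2 : (y : ZMod p) = -((x : ZMod p))⁻¹ := by
      rw [← hmodcast y p hp, hxy, hτ _ p hp, hmodcast x p hp]
    push_cast at h1
    rw [h2] at h1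
    by_cases hx : (x : ZMod p) = 0
    · rw [hx] at h1
      simp at h1
    · have h3 : (2 : ZMod p) * x * -((x : ZMod p))⁻¹ + 1 = -1 := by
        field_simp
        ring
      rw [h3] at h1
      exact one_ne_zero (neg_eq_zero.1 h1)
  · exact hjoint (Or.inl h)
  · exact hjoint (Or.inr h)

theorem class_card (M n r : ℕ) (hM : 0 < M) (hr : r < M) (F : Finset ℕ)
    (hF : ∀ x ∈ Icc 1 n, x % M = r → x ∈ F) : n / M ≤ F.card := by
  have hMn : M * (n / M) ≤ n := Nat.mul_div_le n M
  rw [← card_range (n / M)]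
  apply card_le_card_of_injOn (fun j => j * M + if r = 0 then M else r)
  · intro j hj
    have hj' : j < n / M := mem_range.1 (mem_coe.1 hj)
    have h1 : (j + 1) * M ≤ M * (n / M) := by
      rw [mul_comm]
      exact Nat.mul_le_mul_left _ hj'
    have h2 : (j + 1) * M = j * M + M := by ring
    apply mem_coe.2
    apply hF
    · rw [mem_Icc]
      show 1 ≤ j * M + (if r = 0 then M else r) ∧ j * M + (if r = 0 then M else r) ≤ n
      split_ifs <;> omega
    · show (j * M + (if r = 0 then M else r)) % M = r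
      split_ifs with h0
      · rw [← h2, Nat.mul_mod_left, h0]
      · rw [Nat.add_comm, Nat.add_mul_mod_self_right, Nat.mod_eq_of_lt hr]
  · intro a _ b _ hab
    have hab' : a * M + (if r = 0 then M else r) = b * M + (if r = 0 then M else r) := hab
    have h3 : a * M = b * M := by omega
    exact Nat.eq_of_mul_eq_mul_right hM h3

/-- the property of the numbers -/
def Nice (ε C : ℝ) (r n m : ℕ) : Prop :=
  Squarefree m ∧ (m.primeFactors.card : ℝ) ≤ C * log (log n) ∧
    ∃ u w : ℕ, m = u * w ∧ (u : ℝ) ≤ (n : ℝ) ^ ε ∧ w.primeFactors.card ≤ r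

/-- few bad partners in an allowed class -/
theorem few_bad (M : ℕ) (hM : 0 < M) (h17 : ∀ p : ℕ, p.Prime → p < 17 → p ∣ M) (ε : ℝ)
    (hε : 0 < ε) (hε1 : ε ≤ 1) :
    ∃ (n0 r : ℕ), ∀ n : ℕ, n0 ≤ n → ∀ x : ℕ, x ≤ n → ∀ c : ℕ, ∀ F : Finset ℕ,
      (∀ y ∈ F, y ∈ Icc 1 n ∧ y % M = c ∧ (∀ p : ℕ, p.Prime → p ∣ M → ¬ p ∣ 2 * y * x + 1) ∧
        ¬ Nice ε (1536 * M) r n (2 * y * x + 1)) → (F.card : ℝ) ≤ ((n : ℝ) + 1) / (8 * M) := by
  classical
  have hMR : (1 : ℝ) ≤ M := by exact_mod_cast hM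
  have h1 := Chebyshev.eventually_primeCounting_le (ε := 1) one_pos
  have h2 : ∀ᶠ x : ℝ in Filter.atTop, 64 * M * (log 4 + 1) ≤ log x :=
    Real.tendsto_log_atTop.eventually (Filter.eventually_ge_atTop _)
  have h2' : ∀ᶠ x : ℝ in Filter.atTop, 768 * M / ε ≤ log x :=
    Real.tendsto_log_atTop.eventually (Filter.eventually_ge_atTop _)
  obtain ⟨x0, hx0⟩ := Filter.eventually_atTop.1 ((h1.and h2).and h2')
  refine ⟨max 16 ⌈x0⌉₊, ⌈7680 * M / ε⌉₊, ?_⟩
  intro n hn x hx c F hF
  set r := ⌈7680 * M / ε⌉₊ with hr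
  have hrR : 7680 * M / ε ≤ (r : ℝ) := Nat.le_ceil _
  have hn16 : 16 ≤ n := (le_max_left _ _).trans hn
  have hnR : (16 : ℝ) ≤ n := by exact_mod_cast hn16
  have hnx0 : x0 ≤ (n : ℝ) := Nat.ceil_le.1 ((le_max_right _ _).trans hn)
  obtain ⟨⟨h3, h4⟩, -⟩ := hx0 (2 * ((n + 1 : ℕ) : ℝ)) (by push_cast; linarith)
  obtain ⟨-, hLε⟩ := hx0 n hnx0
  have htR : ((n + 1 : ℕ) : ℝ) = n + 1 := by push_cast; ring
  -- primes
  have hpi : (Nat.primeCounting (2 * (n + 1)) : ℝ) ≤ (n + 1) / (32 * M) := by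
    have h5 : ⌊2 * ((n + 1 : ℕ) : ℝ)⌋₊ = 2 * (n + 1) := by
      have : (2 * ((n + 1 : ℕ) : ℝ)) = ((2 * (n + 1) : ℕ) : ℝ) := by push_cast; ring
      rw [this, Nat.floor_natCast]
    rw [h5] at h3
    have hlog4 : 0 < log 4 := log_pos (by norm_num)
    have h6 : 0 < log (2 * ((n + 1 : ℕ) : ℝ)) := by
      have : 0 < 64 * (M : ℝ) * (log 4 + 1) := by positivity
      linarith
    refine h3.trans ?_
    rw [div_le_div_iff₀ h6 (by positivity), htR]
    rw [htR] at h4
    have h7 : 0 ≤ (n : ℝ) + 1 := by linarith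
    have h8 := mul_le_mul_of_nonneg_left h4 h7
    nlinarith
  -- logarithms
  have hlog16 : (2.76 : ℝ) < log 16 := by
    have h5 : log 16 = 4 * log 2 := by
      rw [show (16 : ℝ) = 2 ^ 4 by norm_num, log_pow]
      norm_num
    have := log_two_gt_d9
    rw [h5]
    linarith
  have hlogn16 := log_le_log (by norm_num) hnR
  have hlogn : 0 < log n := by linarith
  have hL : 1 ≤ log (log n) := by
    rw [le_log_iff_exp_le hlogn]
    have h6 := exp_one_lt_d9
    linarith
  have hlogt : log ((n + 1 : ℕ) : ℝ) ≤ 2 * log n := by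
    have h5 : ((n + 1 : ℕ) : ℝ) ≤ (n : ℝ) ^ 2 := by rw [htR]; nlinarith
    have h6 := log_le_log (by positivity) h5
    rw [log_pow] at h6
    push_cast at h6 ⊢
    exact h6
  have hlogt' : log n ≤ log ((n + 1 : ℕ) : ℝ) := by
    apply log_le_log (by linarith)
    rw [htR]
    linarith
  have hlog2 : log 2 < 0.6931471808 := log_two_lt_d9
  have hlog2' : 0.6931471803 < log 2 := log_two_gt_d9
  have hLt : log (log ((n + 1 : ℕ) : ℝ)) ≤ 2 * log (log n) := by
    have h5 := log_le_log (by linarith) hlogt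
    rw [log_mul (by norm_num) hlogn.ne'] at h5
    linarith
  have hmany := card_many' (n + 1) x (by omega) (by omega) (1536 * M * log (log n))
  -- the smoothness bound
  set K := ⌊ε * log n / (384 * M)⌋₊ with hK
  have hεL : 768 * M ≤ ε * log n := by
    have h5 : ε * (768 * M / ε) ≤ ε * log n := mul_le_mul_of_nonneg_left hLε hε.le
    have h6 : ε * (768 * M / ε) = 768 * M := by field_simp
    linarith
  have ha2 : 2 ≤ ε * log n / (384 * M) := by
    rw [le_div_iff₀ (by positivity)]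
    linarith
  have hKle : (K : ℝ) ≤ ε * log n / (384 * M) := Nat.floor_le (by positivity)
  have hKlt : ε * log n / (384 * M) < K + 1 := Nat.lt_floor_add_one _
  have hKge : ε * log n / (384 * M) / 2 ≤ K := by linarith
  have hK1 : 1 ≤ K := by
    have : (1 : ℝ) ≤ K := by linarith
    exact_mod_cast this
  obtain ⟨J, hJ⟩ : ∃ J, K = J + 1 := ⟨K - 1, by omega⟩
  have hJR : (K : ℝ) = J + 1 := by rw [hJ]; push_cast; ring
  have hpow : 2 ^ (J + 1) ≤ n + 1 := by
    have h5 : ((2 : ℝ)) ^ (J + 1) ≤ ((n + 1 : ℕ) : ℝ) := by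
      rw [← log_le_log_iff (by positivity) (by positivity), log_pow, ← hJ]
      have h6 : (K : ℝ) ≤ log n := by
        refine hKle.trans ?_
        rw [div_le_iff₀ (by positivity)]
        have h7 : ε * log n ≤ 1 * log n := mul_le_mul_of_nonneg_right hε1 hlogn.le
        nlinarith
      have h8 : (K : ℝ) * log 2 ≤ K * 1 := mul_le_mul_of_nonneg_left (by linarith) (Nat.cast_nonneg _)
      linarith
    exact_mod_cast h5
  have hsm := card_sm' (n + 1) x J hpow (ε * log n)
  rw [Nat.add_sub_cancel] at hmany hsm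
  set B1 := (Icc 1 n).filter (fun k => k % M = c ∧
    (∀ p : ℕ, p.Prime → p ∣ M → ¬ p ∣ 2 * k * x + 1) ∧ ¬ Squarefree (2 * k * x + 1)) with hB1
  set B2 := (Icc 1 n).filter
    (fun k => 1536 * M * log (log n) < ((2 * k * x + 1).primeFactors.card : ℝ)) with hB2
  set B3 := (Icc 1 n).filter
    (fun k => ε * log n < sm (2 ^ (J + 1)) (2 * k * x + 1)) with hB3
  have hb1 : (B1.card : ℝ) ≤ n / (32 * M) + Nat.primeCounting (2 * (n + 1)) := by
    convert card_not_squarefree' M n x c hM h17 hx using 3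
  have hb2 : (B2.card : ℝ) ≤ (n + 1) / (32 * M) := by
    have h5 : 2 * ((n + 1 : ℕ) : ℝ) * (8 + 4 * log (log ((n + 1 : ℕ) : ℝ))) ≤
        2 * ((n + 1 : ℕ) : ℝ) * (16 * log (log n)) := by
      apply mul_le_mul_of_nonneg_left _ (by positivity)
      linarith
    have h6 : (B2.card : ℝ) * (1536 * M * log (log n)) ≤
        2 * ((n + 1 : ℕ) : ℝ) * (16 * log (log n)) := hmany.trans h5
    have h7 : ((B2.card : ℝ) * (48 * M)) * (32 * log (log n)) ≤
        ((n : ℝ) + 1) * (32 * log (log n)) := by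
      rw [htR] at h6
      linarith
    have h8 := le_of_mul_le_mul_right h7 (by linarith)
    rw [le_div_iff₀ (by positivity)]
    have h9 : (0 : ℝ) ≤ B2.card := Nat.cast_nonneg _
    nlinarith
  have hb3 : (B3.card : ℝ) ≤ (n + 1) / (32 * M) := by
    rw [← hJR, htR] at hsm
    have h5 : 12 * ((n : ℝ) + 1) * K ≤ 12 * ((n : ℝ) + 1) * (ε * log n / (384 * M)) :=
      mul_le_mul_of_nonneg_left hKle (by positivity)
    have h6 : (B3.card : ℝ) * (ε * log n) ≤ ((n : ℝ) + 1) / (32 * M) * (ε * log n) := by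
      have h7 : 12 * ((n : ℝ) + 1) * (ε * log n / (384 * M)) =
          ((n : ℝ) + 1) / (32 * M) * (ε * log n) := by
        field_simp
        ring
      linarith
    exact le_of_mul_le_mul_right h6 (by positivity)
  have hcov : F ⊆ B1 ∪ (B2 ∪ B3) := by
    intro k hk
    obtain ⟨hk1, hk2, hk3, hk4⟩ := hF k hk
    rw [mem_union, mem_union, hB1, hB2, hB3, mem_filter, mem_filter, mem_filter]
    by_cases h5 : Squarefree (2 * k * x + 1)
    · by_cases h6 : ((2 * k * x + 1).primeFactors.card : ℝ) ≤ 1536 * M * log (log n)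
      · by_cases h7 : sm (2 ^ (J + 1)) (2 * k * x + 1) ≤ ε * log n
        · exfalso
          apply hk4
          refine ⟨h5, h6, ?_⟩
          obtain ⟨u, w, huw, hu, hw⟩ := split _ _ h5 _ h7
          refine ⟨u, w, huw, ?_, ?_⟩
          · rw [rpow_def_of_pos (by linarith), mul_comm]
            exact hu
          · refine hw.trans ?_
            rw [mem_Icc] at hk1
            apply card_rough (n + 1) J r _ (by omega) (by omega)
            · have h8 : k * x ≤ n * n := Nat.mul_le_mul hk1.2 hx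
              nlinarith
            · rw [← hJR]
              have h9 : (7680 * M / ε) * ((ε * log n / (384 * M) / 2) * 0.69) ≤
                  r * (K * log 2) := by
                apply mul_le_mul hrR _ (by positivity) (by positivity)
                exact mul_le_mul hKge (by linarith) (by norm_num) (by positivity)
              have h10 : (7680 * M / ε) * ((ε * log n / (384 * M) / 2) * 0.69) =
                  6.9 * log n := by
                field_simp
                ring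
              linarith
        · exact Or.inr (Or.inr ⟨hk1, lt_of_not_ge h7⟩)
      · exact Or.inr (Or.inl ⟨hk1, lt_of_not_ge h6⟩)
    · exact Or.inl ⟨hk1, hk2, hk3, h5⟩
  have hcard := (card_le_card hcov).trans
    ((card_union_le _ _).trans (Nat.add_le_add_left (card_union_le _ _) _))
  have hcard' : (F.card : ℝ) ≤ B1.card + (B2.card + B3.card) := by exact_mod_cast hcard
  have h10 : (n : ℝ) / (32 * M) ≤ ((n : ℝ) + 1) / (32 * M) := by
    apply div_le_div_of_nonneg_right _ (by positivity)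
    linarith
  have h11 : ((n : ℝ) + 1) / (8 * M) = 4 * (((n : ℝ) + 1) / (32 * M)) := by
    field_simp
    ring
  rw [h11]
  linarith

/-- all conditions at once -/
theorem unified (S : Finset ℕ) (hS : ∀ p ∈ S, p.Prime) (ε : ℝ) (hε : 0 < ε) :
    ∃ (n0 : ℕ) (C : ℝ) (r : ℕ), ∀ n : ℕ, n0 ≤ n → HasCircular n (fun m =>
      Squarefree m ∧ (∀ p ∈ S, ¬ p ∣ m) ∧ (m.primeFactors.card : ℝ) ≤ C * log (log n) ∧
      ∃ u w : ℕ, m = u * w ∧ (u : ℝ) ≤ (n : ℝ) ^ ε ∧ w.primeFactors.card ≤ r) := by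
  classical
  set S' := S ∪ (range 17).filter Nat.Prime with hS'
  have hS'p : ∀ p ∈ S', p.Prime := by
    intro p hp
    rcases mem_union.1 hp with h | h
    · exact hS p h
    · exact (mem_filter.1 h).2
  set M := ∏ p ∈ S', p with hMdef
  have hM : 0 < M := prod_pos fun p hp => (hS'p p hp).pos
  have hMR : (1 : ℝ) ≤ M := by exact_mod_cast hM
  have hpM : ∀ p ∈ S', p ∣ M := fun p hp => dvd_prod_of_mem _ hp
  have h17 : ∀ p : ℕ, p.Prime → p < 17 → p ∣ M := fun p hp hlt =>
    hpM p (mem_union_right _ (mem_filter.2 ⟨mem_range.2 hlt, hp⟩))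
  have hMS : ∀ p : ℕ, p.Prime → p ∣ M → p ∈ S' := by
    intro p hp hpd
    obtain ⟨q, hq, hpq⟩ := (hp.prime.dvd_finsetProd_iff _).1 hpd
    have : p = q := (Nat.prime_dvd_prime_iff_eq hp (hS'p q hq)).1 hpq
    rw [this]
    exact hq
  have hex := exists_partner S' hS'p
  have hcast := eq_of_casts S' hS'p
  choose τ hτlt hτ using hex
  rw [← hMdef] at hτlt hcast
  have hinv : ∀ r, r < M → τ (τ r) = r := by
    intro r hr
    apply hcast _ _ (hτlt _) hr
    intro p hp
    have : Fact p.Prime := ⟨hS'p p hp⟩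
    rw [hτ _ p hp, hτ _ p hp, inv_neg, inv_inv, neg_neg]
  have hτ0 : τ 0 = 0 := by
    apply hcast _ _ (hτlt _) hM
    intro p hp
    have : Fact p.Prime := ⟨hS'p p hp⟩
    rw [hτ _ p hp]
    simp
  have hlocal : ∀ x y, Allowed M τ x y → ∀ p ∈ S', ¬ p ∣ 2 * x * y + 1 :=
    fun x y h => local_ok S' hS'p τ hτ x y h
  obtain ⟨n1, r, hfew⟩ := few_bad M hM h17 (min ε 1) (lt_min hε one_pos) (min_le_right _ _)
  refine ⟨max n1 (100 * (M * M)), 1536 * M, r, ?_⟩
  intro n hn
  have hn1 : n1 ≤ n := (le_max_left _ _).trans hn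
  have hnM : 100 * (M * M) ≤ n := (le_max_right _ _).trans hn
  have hMM : M ≤ M * M := Nat.le_mul_of_pos_left M hM
  obtain ⟨σ0, hc0, hT0, hD0⟩ := init M n hM (by omega) τ hτlt hinv hτ0
  set β := ⌊((n : ℝ) + 1) / (8 * M)⌋₊ with hβ
  have hβR : (β : ℝ) ≤ ((n : ℝ) + 1) / (8 * M) := Nat.floor_le (by positivity)
  have hnR : 100 * ((M : ℝ) * M) ≤ n := by exact_mod_cast hnM
  have hbig : 2 * M + 1 + 2 * β < n / M := by
    have h1 : (n : ℝ) / M < ((n / M : ℕ) : ℝ) + 1 := by
      rw [div_lt_iff₀ (by positivity)]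
      have h2 := Nat.lt_mul_div_succ n hM
      have h2' : (n : ℝ) < ((M * (n / M + 1) : ℕ) : ℝ) := by exact_mod_cast h2
      push_cast at h2'
      linarith
    have h3 : ((2 * M + 1 + 2 * β : ℕ) : ℝ) < ((n / M : ℕ) : ℝ) := by
      push_cast
      have h4 : ((n : ℝ) + 1) / (8 * M) * 2 + 2 * M + 2 ≤ (n : ℝ) / M := by
        rw [← sub_nonneg]
        have h5 : (n : ℝ) / M - (((n : ℝ) + 1) / (8 * M) * 2 + 2 * M + 2) =
            (3 * n - 1 - 8 * M * M - 8 * M) / (4 * M) := by
          field_simp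
          ring
        rw [h5]
        apply div_nonneg _ (by positivity)
        nlinarith
      linarith
    exact_mod_cast h3
  obtain ⟨σ, hc, hσ⟩ := struct M n (n / M) (2 * M) β hM τ hτlt hinv hτ0
    (fun x y => Nice (min ε 1) (1536 * M) r n (2 * x * y + 1))
    (fun x y h => by
      have h1 : 2 * y * x + 1 = 2 * x * y + 1 := by ring
      rw [h1]
      exact h)
    (fun r hr F hF => class_card M n r hM hr F hF)
    (by
      intro x hx c hc hcx F hF
      apply Nat.le_floor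
      apply hfew n hn1 x (mem_Icc.1 hx).2 c F
      intro y hy
      obtain ⟨h1, h2, h3⟩ := hF y hy
      have h4 : 2 * y * x + 1 = 2 * x * y + 1 := by ring
      refine ⟨h1, h2, ?_, ?_⟩
      · intro p hp hpd
        rw [h4]
        apply hlocal x y _ p (hMS p hp hpd)
        rcases hcx with h | h | h
        · left
          rw [h2, h]
        · exact Or.inr (Or.inl h)
        · right
          right
          rw [h] at h2
          exact Nat.dvd_of_mod_eq_zero h2
      · rw [h4]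
        exact h3)
    hbig σ0 hc0 hT0 hD0
  have hn0 : 1 ≤ n := by omega
  apply hasCircular_of n hn0
  refine ⟨σ, hc.bij, hc.per, fun i hi => ?_⟩
  obtain ⟨h1, h2, h3, u, w, h4, h5, h6⟩ := hσ i hi
  refine ⟨h2, fun p hp => hlocal _ _ h1 p (mem_union_left _ hp), h3, u, w, h4, h5.trans ?_, h6⟩
  apply rpow_le_rpow_of_exponent_le _ (min_le_left _ _)
  have : (1 : ℝ) ≤ ((n : ℕ) : ℝ) := by exact_mod_cast hn0
  exact this

end Pool.Agent.H34.CQ
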